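import Mathlib
import Pool.Agent.N395.MK

/-!
MP_5e7574_co, full answer to Q1 (disproof): for the incidence graph `H` of the Moebius-Kantor
configuration the sequence `log_p inj(H, G_p)` over the primes does not converge.
-/

set_option autoImplicit false

open Module Filter Topology

namespace Pool.Agent.Results.MP_5e7574_co.NoConvergence

/-- bipartite graphs with labelled vertex classes `V₁`, `V₂` and edge set contained in the product
of `V₁` and `V₂` -/
structure BipGraph where
  /-- the first vertex class -/
  V₁ : Type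
  /-- the second vertex class -/
  V₂ : Type
  /-- `E x y` says that `(x, y)` is an edge -/
  E : V₁ → V₂ → Prop

/-- the number of label-preserving homomorphisms from `H` to `G` which are injective on the
vertices -/
noncomputable def inj (H G : BipGraph) : ℕ :=
  Nat.card {f : (H.V₁ → G.V₁) × (H.V₂ → G.V₂) // Function.Injective f.1 ∧
    Function.Injective f.2 ∧ ∀ x y, H.E x y → G.E (f.1 x) (f.2 y)}

/-- the point-line incidence graph of the projective plane over the field with `p` elements: the
points and lines are the subspaces of dimension one and two of a three-dimensional space -/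
def planeGraph (p : ℕ) : BipGraph where
  V₁ := {P : Submodule (ZMod p) (Fin 3 → ZMod p) // finrank (ZMod p) P = 1}
  V₂ := {L : Submodule (ZMod p) (Fin 3 → ZMod p) // finrank (ZMod p) L = 2}
  E P L := P.1 ≤ L.1

/-- the logarithm of `n` to the base `p`, with the convention that it is `-∞` for `n = 0` -/
noncomputable def logBase (p n : ℕ) : EReal := if n = 0 then ⊥ else ((Real.logb p n : ℝ) : EReal)

/-- the incidence graph of the Moebius-Kantor configuration: eight points, eight lines, line `j`
contains the points `j`, `j + 1` and `j + 3` modulo eight -/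
def moebiusKantor : BipGraph where
  V₁ := Fin 8
  V₂ := Fin 8
  E i j := i = j ∨ i = j + 1 ∨ i = j + 3

open Pool.Agent.N395

lemma exists_root_iff_mod (p : ℕ) [hp : Fact p.Prime] (h : ∃ b : ZMod p, b ^ 2 - b + 1 = 0) :
    p % 3 ≠ 2 := by
  intro hp2
  obtain ⟨b, hb⟩ := h
  have h3 : b ^ 3 = -1 := by linear_combination (b + 1) * hb
  have hb0 : b ≠ 0 := by
    rintro rfl
    simp at hb
  have h4 : (-b) ^ 3 = 1 := by linear_combination -h3
  have h5 : (-b) ^ (p - 1) = 1 := ZMod.pow_card_sub_one_eq_one (neg_ne_zero.2 hb0)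
  have h6 : (-b) ^ (Nat.gcd 3 (p - 1)) = 1 := by
    rw [pow_gcd_eq_one]
    exact ⟨h4, h5⟩
  have h7 : Nat.gcd 3 (p - 1) = 1 := by
    rw [← Nat.coprime_iff_gcd_eq_one, Nat.Prime.coprime_iff_not_dvd Nat.prime_three]
    omega
  rw [h7, pow_one] at h6
  have h8 : b = -1 := by linear_combination -h6
  rw [h8] at hb
  have h9 : (3 : ZMod p) = 0 := by linear_combination hb
  have h10 : ((3 : ℕ) : ZMod p) = 0 := by exact_mod_cast h9
  rw [ZMod.natCast_eq_zero_iff] at h10
  have := (Nat.prime_dvd_prime_iff_eq hp.out Nat.prime_three).1 h10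
  omega

lemma exists_root (p : ℕ) [hp : Fact p.Prime] (h : p % 3 = 1) :
    ∃ b : ZMod p, b ^ 2 - b + 1 = 0 := by
  have h1 : 3 ∣ Fintype.card (ZMod p)ˣ := by
    rw [ZMod.card_units]
    omega
  obtain ⟨u, hu⟩ := exists_prime_orderOf_dvd_card 3 h1
  have h2 : (u : ZMod p) ^ 3 = 1 := by
    have := pow_orderOf_eq_one u
    rw [hu] at this
    rw [← Units.val_pow_eq_pow_val, this, Units.val_one]
  have h3 : (u : ZMod p) ≠ 1 := by
    intro h
    have : u = 1 := Units.ext h
    rw [this, orderOf_one] at hu
    omega
  refine ⟨-u, ?_⟩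
  have h4 : ((u : ZMod p) - 1) * ((u : ZMod p) ^ 2 + u + 1) = 0 := by linear_combination h2
  rcases mul_eq_zero.1 h4 with h5 | h5
  · exact absurd (sub_eq_zero.1 h5) h3
  · linear_combination h5

/-- there is no injective homomorphism for `p ≡ 2` modulo `3` -/
lemma inj_eq_zero (p : ℕ) [hp : Fact p.Prime] (h : p % 3 = 2) :
    inj moebiusKantor (planeGraph p) = 0 := by
  have : IsEmpty {f : (moebiusKantor.V₁ → (planeGraph p).V₁) × (moebiusKantor.V₂ →
      (planeGraph p).V₂) // Function.Injective f.1 ∧ Function.Injective f.2 ∧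
        ∀ x y, moebiusKantor.E x y → (planeGraph p).E (f.1 x) (f.2 y)} := by
    constructor
    rintro ⟨⟨f, g⟩, hf, hg, hE⟩
    refine exists_root_iff_mod p (MK.root_of_realization (fun i => (f i).1) (fun j => (g j).1)
      (fun i => (f i).2) (fun j => (g j).2) ?_ ?_ ?_) h
    · intro i j hij
      exact hf (Subtype.ext hij)
    · intro i j hij
      exact hg (Subtype.ext hij)
    · intro i j hij
      exact hE i j hij
  exact Nat.card_of_isEmpty

/-- there is an injective homomorphism for `p ≡ 1` modulo `3` -/
lemma inj_pos (p : ℕ) [hp : Fact p.Prime] (h : p % 3 = 1) :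
    0 < inj moebiusKantor (planeGraph p) := by
  obtain ⟨b, hb⟩ := exists_root p h
  obtain ⟨P, L, hP, hL, hPi, hLi, hinc⟩ := MK.realization_of_root b hb
  have hfin : Finite {f : (moebiusKantor.V₁ → (planeGraph p).V₁) × (moebiusKantor.V₂ →
      (planeGraph p).V₂) // Function.Injective f.1 ∧ Function.Injective f.2 ∧
        ∀ x y, moebiusKantor.E x y → (planeGraph p).E (f.1 x) (f.2 y)} := by
    have : Finite (planeGraph p).V₁ := by
      unfold planeGraph; infer_instance
    have : Finite (planeGraph p).V₂ := by
      unfold planeGraph; infer_instance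
    have : Finite moebiusKantor.V₁ := inferInstanceAs (Finite (Fin 8))
    have : Finite moebiusKantor.V₂ := inferInstanceAs (Finite (Fin 8))
    infer_instance
  have hne : Nonempty {f : (moebiusKantor.V₁ → (planeGraph p).V₁) × (moebiusKantor.V₂ →
      (planeGraph p).V₂) // Function.Injective f.1 ∧ Function.Injective f.2 ∧
        ∀ x y, moebiusKantor.E x y → (planeGraph p).E (f.1 x) (f.2 y)} := by
    refine ⟨⟨(fun i => ⟨P i, hP i⟩, fun j => ⟨L j, hL j⟩), ?_, ?_, ?_⟩⟩
    · intro i i' h
      exact hPi (congrArg Subtype.val h)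
    · intro j j' h
      exact hLi (congrArg Subtype.val h)
    · intro i j hij
      exact hinc i j hij
  exact Nat.card_pos

instance : Nonempty {p : ℕ // p.Prime} := ⟨⟨2, Nat.prime_two⟩⟩

/-- There is a finite bipartite graph `H` with at least one edge (the incidence graph of the
Moebius-Kantor configuration) such that the sequence `log_p inj(H, G_p)`, where `p` runs through
the primes in increasing order, has `liminf < limsup`; in particular it has no limit in
`[-∞, ∞]`. -/
theorem result : ∃ H : BipGraph, Finite H.V₁ ∧ Finite H.V₂ ∧ (∃ x y, H.E x y) ∧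
    liminf (fun p : {p : ℕ // p.Prime} => logBase p (inj H (planeGraph p))) atTop <
      limsup (fun p : {p : ℕ // p.Prime} => logBase p (inj H (planeGraph p))) atTop ∧
    ¬ ∃ l : EReal,
      Tendsto (fun p : {p : ℕ // p.Prime} => logBase p (inj H (planeGraph p))) atTop (𝓝 l) := by
  have hlt : liminf (fun p : {p : ℕ // p.Prime} =>
      logBase p (inj moebiusKantor (planeGraph p))) atTop <
      limsup (fun p : {p : ℕ // p.Prime} => logBase p (inj moebiusKantor (planeGraph p)))
        atTop := by
    have h1 : liminf (fun p : {p : ℕ // p.Prime} =>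
        logBase p (inj moebiusKantor (planeGraph p))) atTop ≤ ⊥ := by
      refine Filter.liminf_le_of_frequently_le ?_
      rw [frequently_atTop]
      intro a
      obtain ⟨p, hpa, hpp, hmod⟩ := Nat.forall_exists_prime_gt_and_modEq a.1 (q := 3) (a := 2)
        (by norm_num) (by norm_num)
      refine ⟨⟨p, hpp⟩, ?_, ?_⟩
      · exact hpa.le
      · have : Fact p.Prime := ⟨hpp⟩
        have h2 : p % 3 = 2 := hmod
        simp only [inj_eq_zero p h2, logBase, if_true, le_refl]
    have h2 : 0 ≤ limsup (fun p : {p : ℕ // p.Prime} =>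
        logBase p (inj moebiusKantor (planeGraph p))) atTop := by
      refine Filter.le_limsup_of_frequently_le ?_
      rw [frequently_atTop]
      intro a
      obtain ⟨p, hpa, hpp, hmod⟩ := Nat.forall_exists_prime_gt_and_modEq a.1 (q := 3) (a := 1)
        (by norm_num) (by norm_num)
      refine ⟨⟨p, hpp⟩, ?_, ?_⟩
      · exact hpa.le
      · have : Fact p.Prime := ⟨hpp⟩
        have h2 : p % 3 = 1 := hmod
        have h3 := inj_pos p h2
        simp only [logBase, if_neg h3.ne']
        rw [← EReal.coe_zero, EReal.coe_le_coe_iff]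
        apply Real.logb_nonneg
        · exact_mod_cast hpp.one_lt
        · exact_mod_cast h3
    exact lt_of_le_of_lt h1 (lt_of_lt_of_le EReal.bot_lt_zero h2)
  refine ⟨moebiusKantor, inferInstanceAs (Finite (Fin 8)), inferInstanceAs (Finite (Fin 8)),
    ⟨(0 : Fin 8), (0 : Fin 8), Or.inl rfl⟩, hlt, ?_⟩
  rintro ⟨l, hl⟩
  rw [hl.liminf_eq, hl.limsup_eq] at hlt
  exact lt_irrefl _ hlt

end Pool.Agent.Results.MP_5e7574_co.NoConvergence
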